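import Pool.Agent.Lib.MP_108739_an.HA.Haus
import Pool.Agent.Lib.MP_108739_an.HA.All
import Pool.Agent.Lib.MP_108739_an.F.All

/-! The mixed norm maximal estimate for the extension operator of a planar curve, all `q > 3`. -/

namespace Pool.Agent.Results.MP_108739_an.MaximalAll

open MeasureTheory Set
open scoped ENNReal NNReal
open Pool.Agent.Lib.MP_108739_an

abbrev Plane := EuclideanSpace ℝ (Fin 2)

/-- Derivative on the closed parameter interval. -/
noncomputable def d (γ : ℝ → Plane) : ℝ → Plane := derivWithin γ (Icc 0 1)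

/-- `S` is a compact twice continuously differentiable curve with nonvanishing curvature. -/
def CurvedArc (S : Set Plane) : Prop :=
  ∃ γ : ℝ → Plane, ContDiffOn ℝ 2 γ (Icc 0 1) ∧ S = γ '' Icc 0 1 ∧
    ∀ u ∈ Icc (0 : ℝ) 1, d γ u 0 * d (d γ) u 1 - d γ u 1 * d (d γ) u 0 ≠ 0

/-- Arclength measure on `S`. -/
noncomputable def sigma (S : Set Plane) : Measure Plane :=
  (Measure.hausdorffMeasure 1).restrict S

/-- The extension operator. -/
noncomputable def ext (S : Set Plane) (f : Plane → ℂ) (x : Plane) : ℂ :=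
  ∫ ξ, Complex.exp (Complex.I * (inner ℝ x ξ : ℝ)) * f ξ ∂(sigma S)

/-- The mixed norm, `L^q` in the first and `L^∞` in the second variable. -/
noncomputable def mixed (q : ℝ) (F : Plane → ℂ) : ℝ≥0∞ :=
  (∫⁻ x₁ : ℝ, essSup (fun x₂ : ℝ => ‖F !₂[x₁, x₂]‖ₑ) volume ^ q) ^ (1 / q)

theorem d_apply {γ : ℝ → Plane} {u : ℝ} (h : DifferentiableWithinAt ℝ γ (Icc 0 1) u)
    (hu : u ∈ Icc (0 : ℝ) 1) (i : Fin 2) :
    derivWithin (fun v => γ v i) (Icc 0 1) u = d γ u i :=
  (((EuclideanSpace.proj i : Plane →L[ℝ] ℝ).hasFDerivAt.comp_hasDerivWithinAt u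
    h.hasDerivWithinAt)).derivWithin (uniqueDiffOn_Icc zero_lt_one u hu)

theorem result (S : Set Plane) (hS : CurvedArc S) (q : ℝ) (hq : 3 < q) (p : ℝ≥0∞)
    (hp : ENNReal.ofReal (2 / q) + p⁻¹ < 1) :
    ∃ C : ℝ≥0, ∀ f : Plane → ℂ, MemLp f p (sigma S) →
      mixed q (ext S f) ≤ C * eLpNorm f p (sigma S) := by
  obtain ⟨γ, h2, rfl, hc⟩ := hS
  have U : UniqueDiffOn ℝ (Icc (0 : ℝ) 1) := uniqueDiffOn_Icc zero_lt_one
  have h1 : ContDiffOn ℝ 1 (d γ) (Icc 0 1) := h2.derivWithin U (by norm_num)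
  have e1 : ∀ i, ∀ u ∈ Icc (0 : ℝ) 1, derivWithin (fun v => γ v i) (Icc 0 1) u = d γ u i :=
    fun i u hu => d_apply (h2.differentiableOn (by norm_num) u hu) hu i
  have e2 : ∀ i, ∀ u ∈ Icc (0 : ℝ) 1,
      derivWithin (derivWithin (fun v => γ v i) (Icc 0 1)) (Icc 0 1) u = d (d γ) u i :=
    fun i u hu => by
      rw [derivWithin_congr (f := fun v => d γ v i) (fun v hv => e1 i v hv) (e1 i u hu)]
      exact d_apply (h1.differentiableOn (by norm_num) u hu) hu i
  have cd : ∀ i, ContDiffOn ℝ 2 (fun v => γ v i) (Icc 0 1) := fun i =>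
    (EuclideanSpace.proj i : Plane →L[ℝ] ℝ).contDiff.comp_contDiffOn h2
  have eγ : (fun u => !₂[γ u 0, γ u 1]) = γ := by
    funext u
    ext i
    fin_cases i <;> rfl
  have key := HA.haus_ess
    (fun a b c => HA.g0 a b c.1.continuous c.2.1.continuous (HA.haAll F.fAll a b c))
    (fun v => γ v 0) (fun v => γ v 1) (cd 0) (cd 1)
    (fun u hu => by rw [e1 0 u hu, e1 1 u hu, e2 0 u hu, e2 1 u hu]; exact hc u hu) q hq p hp
  rw [eγ] at key
  exact key

end Pool.Agent.Results.MP_108739_an.MaximalAll
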